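import Pool.Agent.Work.MP_677830_co.One

namespace Pool.Agent.Results.MP_677830_co.ConvexPlusOne

open Pool.Agent.Work.MP_677830_co

/-- Every finite planar point set with no three collinear points that is in convex position
after deleting one point `r` (placed anywhere, inside or outside the convex hull of the others)
has the order type of a point set with all pairwise distances integers. -/
theorem result (S : Finset (EuclideanSpace ℝ (Fin 2))) (hgp : GeneralPosition S)
    (r : EuclideanSpace ℝ (Fin 2)) (hr : r ∈ S)
    (h : ConvexIndependent ℝ
      (Subtype.val : ↥((S : Set (EuclideanSpace ℝ (Fin 2))) \ {r}) →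
        EuclideanSpace ℝ (Fin 2))) :
    IntegerRealizable S :=
  convex_plus_one S hgp r hr h

end Pool.Agent.Results.MP_677830_co.ConvexPlusOne
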