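import Pool.Agent.Work.MP_677830_co.G.Geo2

/-!
# Hyperbolicity of the spaces of point sets with rational distances

Let `d a b` be meromorphic functions on the complex line whose values are, for all parameters off a
discrete set, the mutual distances of points of `ℂ²`. Then either all ratios of the distances are
constant, or for all parameters off a discrete set every such point set lies on a plane curve of
degree at most `2 * (10 ^ 13 + 1)`.
-/

namespace Pool.Agent.Results.MP_677830_co.GeomErdosUlam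

open Filter

theorem result (m : ℕ) (d : Fin m → Fin m → ℂ → ℂ) (hd : ∀ a b, Meromorphic (d a b))
    (he : ∀ᶠ t in codiscrete ℂ, ∃ x y : Fin m → ℂ,
      ∀ a b, (x a - x b) ^ 2 + (y a - y b) ^ 2 = d a b t ^ 2)
    (hne : ∀ a b, a ≠ b → ∃ᶠ t in codiscrete ℂ, d a b t ≠ 0) :
    (∀ a b c e, c ≠ e → ∃ κ : ℂ, ∀ᶠ t in codiscrete ℂ, d a b t = κ * d c e t) ∨
      ∀ᶠ t in codiscrete ℂ, ∀ x y : Fin m → ℂ,
        (∀ a b, (x a - x b) ^ 2 + (y a - y b) ^ 2 = d a b t ^ 2) →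
        ∃ F : MvPolynomial (Fin 2) ℂ, F ≠ 0 ∧ F.totalDegree ≤ 2 * (10 ^ 13 + 1) ∧
          ∀ a, MvPolynomial.eval ![x a, y a] F = 0 := by
  have key : ∀ t, ∃ x y : Fin m → ℂ, ((∃ x y : Fin m → ℂ,
      ∀ a b, (x a - x b) ^ 2 + (y a - y b) ^ 2 = d a b t ^ 2) →
      ∀ a b, (x a - x b) ^ 2 + (y a - y b) ^ 2 = d a b t ^ 2) ∧
      ((∃ F : MvPolynomial (Fin 2) ℂ, F ≠ 0 ∧ F.totalDegree ≤ 2 * (10 ^ 13 + 1) ∧
          ∀ a, MvPolynomial.eval ![x a, y a] F = 0) → ∀ x y : Fin m → ℂ,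
        (∀ a b, (x a - x b) ^ 2 + (y a - y b) ^ 2 = d a b t ^ 2) →
        ∃ F : MvPolynomial (Fin 2) ℂ, F ≠ 0 ∧ F.totalDegree ≤ 2 * (10 ^ 13 + 1) ∧
          ∀ a, MvPolynomial.eval ![x a, y a] F = 0) := by
    intro t
    by_cases h1 : ∀ x y : Fin m → ℂ, (∀ a b, (x a - x b) ^ 2 + (y a - y b) ^ 2 = d a b t ^ 2) →
        ∃ F : MvPolynomial (Fin 2) ℂ, F ≠ 0 ∧ F.totalDegree ≤ 2 * (10 ^ 13 + 1) ∧
          ∀ a, MvPolynomial.eval ![x a, y a] F = 0
    · by_cases ht : ∃ x y : Fin m → ℂ, ∀ a b, (x a - x b) ^ 2 + (y a - y b) ^ 2 = d a b t ^ 2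
      · obtain ⟨x, y, hxy⟩ := ht
        exact ⟨x, y, fun _ => hxy, fun _ => h1⟩
      · exact ⟨0, 0, fun h' => absurd h' ht, fun _ => h1⟩
    · obtain ⟨x, h2⟩ := not_forall.1 h1
      obtain ⟨y, h3⟩ := not_forall.1 h2
      obtain ⟨h4, h5⟩ := Classical.not_imp.1 h3
      exact ⟨x, y, fun _ => h4, fun h' => absurd h' h5⟩
  choose x y hxy using key
  exact (Pool.Agent.Work.MP_677830_co.G.geoA2 m (fun a t => x t a) (fun a t => y t a) d hd
    (fun a b => he.mono fun t ht => (hxy t).1 ht a b) hne).imp_right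
    fun h => h.mono fun t ht => (hxy t).2 ht

end Pool.Agent.Results.MP_677830_co.GeomErdosUlam
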