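import Pool.Agent.Work.MP_677830_co.G.Geo2

/-!
# A general-position obstacle in the geometric model

There is a configuration `S` of at least three points in general position with the following
property. Let `d a b` be meromorphic functions on the complex line (rational and elliptic functions
are special cases) whose values are, for all parameters off a discrete set, the mutual distances of
points of the complex plane `ℂ²`, and which tend at some parameter to the distances of a real point
set of the order type of `S`. Then all ratios of the distances are constant. As in the question over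
the rationals, only the distances are required to lie in the field.
-/

namespace Pool.Agent.Results.MP_677830_co.GeomObstacle

open Filter Topology

/-- The orientation determinant `det (b - a, c - a)`. -/
def orient (a b c : ℝ × ℝ) : ℝ := (b.1 - a.1) * (c.2 - a.2) - (b.2 - a.2) * (c.1 - a.1)

theorem result : ∃ (m : ℕ) (S : Fin m → ℝ × ℝ), 3 ≤ m ∧ Function.Injective S ∧
    (∀ a b c, a ≠ b → b ≠ c → a ≠ c → orient (S a) (S b) (S c) ≠ 0) ∧
    ∀ (d : Fin m → Fin m → ℂ → ℂ) (t₀ : ℂ) (P : Fin m → ℝ × ℝ),
      (∀ a b, Meromorphic (d a b)) →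
      (∀ᶠ t in codiscrete ℂ, ∃ x y : Fin m → ℂ,
        ∀ a b, (x a - x b) ^ 2 + (y a - y b) ^ 2 = d a b t ^ 2) →
      (∀ a b, Tendsto (fun t => d a b t ^ 2) (𝓝[≠] t₀)
        (𝓝 ((((P a).1 - (P b).1) ^ 2 + ((P a).2 - (P b).2) ^ 2 : ℝ) : ℂ))) →
      (∀ a b c, SignType.sign (orient (P a) (P b) (P c)) =
        SignType.sign (orient (S a) (S b) (S c))) →
      ∀ a b c e, c ≠ e → ∃ κ : ℂ, ∀ᶠ t in codiscrete ℂ, d a b t = κ * d c e t := by
  obtain ⟨m, S, h3, hS, hgp, h⟩ := Pool.Agent.Work.MP_677830_co.G.geoB2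
  refine ⟨m, S, h3, hS, hgp, fun d t₀ P hd he h0 hs => ?_⟩
  have key : ∀ t, ∃ x y : Fin m → ℂ, (∃ x y : Fin m → ℂ,
      ∀ a b, (x a - x b) ^ 2 + (y a - y b) ^ 2 = d a b t ^ 2) →
      ∀ a b, (x a - x b) ^ 2 + (y a - y b) ^ 2 = d a b t ^ 2 := by
    intro t
    by_cases ht : ∃ x y : Fin m → ℂ, ∀ a b, (x a - x b) ^ 2 + (y a - y b) ^ 2 = d a b t ^ 2
    · obtain ⟨x, y, hxy⟩ := ht
      exact ⟨x, y, fun _ => hxy⟩
    · exact ⟨0, 0, fun h' => absurd h' ht⟩
  choose x y hxy using key
  exact h (fun a t => x t a) (fun a t => y t a) d t₀ P hd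
    (fun a b => he.mono fun t ht => hxy t ht a b) h0 hs

end Pool.Agent.Results.MP_677830_co.GeomObstacle
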