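import Pool.Agent.Work.MP_677830_co.One

namespace Pool.Agent.Results.MP_677830_co.TwoInterior

open Pool.Agent.Work.MP_677830_co

/-- Every finite planar point set with no three collinear points, at most two of whose points
lie in the convex hull of the remaining points, has the order type of a point set with all
pairwise distances integers. -/
theorem result (S : Finset (EuclideanSpace ℝ (Fin 2))) (hgp : GeneralPosition S)
    (h : {x ∈ (S : Set (EuclideanSpace ℝ (Fin 2))) |
      x ∈ convexHull ℝ ((S : Set (EuclideanSpace ℝ (Fin 2))) \ {x})}.ncard ≤ 2) :
    IntegerRealizable S :=
  two_interior S hgp h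

end Pool.Agent.Results.MP_677830_co.TwoInterior
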